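import Pool.Agent.Helper57.NX3.Defs
import Pool.Agent.Helper61.NX.PatB

/-!
# NX2-C12 : the lattice refinement, upper bounds for one `k`
-/

set_option autoImplicit false

open Finset
open scoped BigOperators

namespace Pool.Agent.Helper57.NX3

noncomputable section

open Pool.Agent.Helper57.NX in
theorem upper_mixed {l : ℕ} (A' : Finset ℕ) (Q Z N : ℕ) [NeZero N] (η : ℝ) (hQ : 0 < Q)
    (hN : Q * (2 * Z) ≤ N) (hA : ∀ p ∈ A', p < Z) (a : Fin l → ℕ)
    (ha : ∀ i, a i ≤ Q * Z)
    (hno : ∀ e < Q, (e : ℝ) < η * Q → ∀ p ∈ A', ¬ ∀ i, p + (e + a i) / Q ∈ A') :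
    ∑ y : ZMod N, g0A A' Q η y * ∏ i, gA A' Q (y + (a i : ZMod N)) = 0 := by
  refine Finset.sum_eq_zero fun y _ => ?_
  by_contra hne
  have h1 : g0A A' Q η y ≠ 0 := left_ne_zero_of_mul hne
  have h2 : ∏ i, gA A' Q (y + (a i : ZMod N)) ≠ 0 := right_ne_zero_of_mul hne
  unfold g0A at h1
  split_ifs at h1 with h3
  · have h4 : y.val / Q ∈ A' := by
      by_contra h5
      exact h1 (if_neg h5)
    have hmod : y.val % Q < Q := Nat.mod_lt _ hQ
    refine hno (y.val % Q) hmod h3 (y.val / Q) h4 fun i => ?_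
    have h6 : gA A' Q (y + (a i : ZMod N)) ≠ 0 :=
      (Finset.prod_ne_zero_iff.mp h2) i (Finset.mem_univ i)
    have h7 : (y + (a i : ZMod N)).val = y.val + a i := by
      refine val_add_nat y (a i) ?_
      have h8 := hA _ h4
      have h9 := Nat.div_add_mod y.val Q
      have h10 : Q * (y.val / Q + 1) ≤ Q * Z := Nat.mul_le_mul_left Q h8
      rw [Nat.mul_succ] at h10
      have h11 : Q * (2 * Z) = Q * Z + Q * Z := by ring
      have := ha i
      omega
    unfold gA at h6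
    rw [h7] at h6
    have h12 : (y.val + a i) / Q ∈ A' := by
      by_contra h13
      exact h6 (if_neg h13)
    have h14 : y.val + a i = Q * (y.val / Q) + (y.val % Q + a i) := by
      have h9 := Nat.div_add_mod y.val Q
      omega
    rw [h14, Nat.mul_add_div hQ] at h12
    exact h12
  · exact h1 rfl

open Pool.Agent.Helper57.NX in
theorem g0_sum_mixed (A' : Finset ℕ) (Q Z N : ℕ) [NeZero N] (η : ℝ) (hQ : 0 < Q)
    (hA : ∀ p ∈ A', p < Z) (hη0 : 0 ≤ η) :
    ∑ y : ZMod N, g0A A' Q η y ≤ Z * (η * Q + 1) := by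
  classical
  have _ := hQ
  set E := range ⌈η * Q⌉₊ with hE
  have h1 : ∀ y : ZMod N, y ∉ (range Z ×ˢ E).image
      (fun pe : ℕ × ℕ => ((Q * pe.1 + pe.2 : ℕ) : ZMod N)) → g0A A' Q η y = 0 := by
    intro y hy
    unfold g0A
    split_ifs with h2
    · refine if_neg fun h3 => hy ?_
      rw [Finset.mem_image]
      refine ⟨(y.val / Q, y.val % Q), ?_, ?_⟩
      · rw [Finset.mem_product, Finset.mem_range, hE, Finset.mem_range, Nat.lt_ceil]
        exact ⟨hA _ h3, h2⟩
      · rw [Nat.div_add_mod, ZMod.natCast_zmod_val]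
    · rfl
  rw [← Finset.sum_subset (Finset.subset_univ _) (fun y _ hy => h1 y hy)]
  set W := (range Z ×ˢ E).image
      (fun pe : ℕ × ℕ => ((Q * pe.1 + pe.2 : ℕ) : ZMod N)) with hW
  calc ∑ y ∈ W, g0A A' Q η y ≤ ∑ _y ∈ W, (1 : ℝ) :=
        Finset.sum_le_sum fun y _ => g0A_le_one _ _ _ _
    _ = (W.card : ℝ) := by
        rw [Finset.sum_const, nsmul_eq_mul, mul_one]
    _ ≤ ((range Z ×ˢ E).card : ℝ) := by exact_mod_cast Finset.card_image_le
    _ = Z * ⌈η * Q⌉₊ := by
        rw [Finset.card_product, Finset.card_range, hE, Finset.card_range]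
        push_cast
        ring
    _ ≤ Z * (η * Q + 1) := by
        refine mul_le_mul_of_nonneg_left ?_ (Nat.cast_nonneg _)
        exact (Nat.ceil_lt_add_one (by positivity)).le

end

end Pool.Agent.Helper57.NX3
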